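import Pool.Agent.L7h50.TV.Bet
import Pool.Agent.L7h39.TV.Stm

set_option autoImplicit false

/-!
# Closed walks through an arc: few of them suffice
-/

namespace Pool.Agent.L7h50.TV

open Pool.Agent.L7h39.TV

theorem s_BET : S_BET := by
  intro E N _ _ _ tl hd g k a b M0 e p q Z η α β _ hk ha hb hp hq hZ hα hβ
  exact s_BET_aux tl hd g k a b M0 e p q Z η α β hk ha hb hp hq hZ hα hβ

end Pool.Agent.L7h50.TV
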