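import Pool.Agent.L7h39.TV.Stm2

set_option autoImplicit false

/-!
# Removing coordinates from the left kernel of a matrix with two entries per row
-/

namespace Pool.Agent.L7h50.TV

open Matrix Pool.Agent.Y648.CS.V Pool.Agent.L7h39.TV

theorem mem_lker' {m n : ℕ} (A : Matrix (Fin m) (Fin n) ℝ) (u : Fin m → ℝ) :
    u ∈ lker A ↔ ∀ j, ∑ i, A i j * u i = 0 := by
  unfold lker
  rw [LinearMap.mem_ker, Matrix.vecMulLinear_apply, funext_iff]
  refine forall_congr' fun j => ?_
  simp only [Matrix.vecMul, dotProduct, Pi.zero_apply]
  rw [Finset.sum_congr rfl fun i _ => mul_comm (u i) (A i j)]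

/-- Elimination of one row. -/
theorem elim {m n : ℕ} (A : Matrix (Fin (m + 1)) (Fin n) ℝ) (hA : Two A) (r : Fin (m + 1)) :
    ∃ A' : Matrix (Fin m) (Fin n) ℝ, Two A' ∧
      ∀ u' : Fin m → ℝ, u' ∈ lker A' ↔ ∃ u ∈ lker A, ∀ i, u' i = u (r.succAbove i) := by
  classical
  by_cases h0 : ∀ j, A r j = 0
  · refine ⟨A.submatrix r.succAbove id, fun i => hA (r.succAbove i), fun u' => ?_⟩
    rw [mem_lker']
    simp only [Matrix.submatrix_apply, id]
    constructor
    · intro h
      refine ⟨r.insertNth 0 u', ?_, fun i => by simp⟩
      rw [mem_lker']
      intro j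
      rw [Fin.sum_univ_succAbove _ r]
      simp only [Fin.insertNth_apply_same, mul_zero, Fin.insertNth_apply_succAbove, zero_add]
      exact h j
    · rintro ⟨u, hu, h⟩ j
      rw [mem_lker'] at hu
      have h1 := hu j
      rw [Fin.sum_univ_succAbove _ r, h0 j, zero_mul, zero_add] at h1
      simp only [h]
      exact h1
  · push Not at h0
    obtain ⟨j1, hj1⟩ := h0
    set a := A r j1 with ha
    set A' : Matrix (Fin m) (Fin n) ℝ := fun i j => if j = j1 then 0 else
      a * A (r.succAbove i) j - A r j * A (r.succAbove i) j1 with hA'
    refine ⟨A', ?_, fun u' => ?_⟩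
    · intro i
      set T := Finset.univ.filter fun j => A r j ≠ 0 with hT
      set S := Finset.univ.filter fun j => A (r.succAbove i) j ≠ 0 with hS
      have hTc : T.card ≤ 2 := hA r
      have hSc : S.card ≤ 2 := hA (r.succAbove i)
      have hj1T : j1 ∈ T := by rw [hT, Finset.mem_filter]; exact ⟨Finset.mem_univ _, hj1⟩
      have hTe : (T.erase j1).card ≤ 1 := by rw [Finset.card_erase_of_mem hj1T]; omega
      by_cases hj : j1 ∈ S
      · have hsub : (Finset.univ.filter fun j => A' i j ≠ 0) ⊆ S.erase j1 ∪ T.erase j1 := by
          intro j hj'
          rw [Finset.mem_filter] at hj'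
          have h1 : j ≠ j1 := by
            rintro rfl
            exact hj'.2 (by rw [hA']; simp)
          have h2 : a * A (r.succAbove i) j - A r j * A (r.succAbove i) j1 ≠ 0 := by
            have := hj'.2
            rw [hA'] at this
            simpa [h1] using this
          rw [Finset.mem_union, Finset.mem_erase, Finset.mem_erase, hS, hT, Finset.mem_filter,
            Finset.mem_filter]
          by_contra hcon
          push Not at hcon
          obtain ⟨c1, c2⟩ := hcon
          have c3 := c1 h1 (Finset.mem_univ _)
          have c4 := c2 h1 (Finset.mem_univ _)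
          apply h2
          rw [c3, c4]; ring
        refine (Finset.card_le_card hsub).trans ((Finset.card_union_le _ _).trans ?_)
        rw [Finset.card_erase_of_mem hj]
        omega
      · have hsub : (Finset.univ.filter fun j => A' i j ≠ 0) ⊆ S := by
          intro j hj'
          rw [Finset.mem_filter] at hj'
          have h1 : j ≠ j1 := by
            rintro rfl
            exact hj'.2 (by rw [hA']; simp)
          have h2 : a * A (r.succAbove i) j - A r j * A (r.succAbove i) j1 ≠ 0 := by
            have := hj'.2
            rw [hA'] at this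
            simpa [h1] using this
          have h3 : A (r.succAbove i) j1 = 0 := by
            by_contra hcon
            exact hj (by rw [hS, Finset.mem_filter]; exact ⟨Finset.mem_univ _, hcon⟩)
          rw [hS, Finset.mem_filter]
          refine ⟨Finset.mem_univ _, fun h4 => h2 ?_⟩
          rw [h3, h4]; ring
        exact (Finset.card_le_card hsub).trans hSc
    · have key : ∀ j, j ≠ j1 → ∑ i, A' i j * u' i =
          a * ∑ i, A (r.succAbove i) j * u' i - A r j * ∑ i, A (r.succAbove i) j1 * u' i := by
        intro j hj
        rw [Finset.mul_sum, Finset.mul_sum, ← Finset.sum_sub_distrib]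
        refine Finset.sum_congr rfl fun i _ => ?_
        rw [hA']
        simp only [if_neg hj]
        ring
      have key1 : ∑ i, A' i j1 * u' i = 0 := by
        refine Finset.sum_eq_zero fun i _ => ?_
        rw [hA']
        simp
      rw [mem_lker']
      constructor
      · intro h
        refine ⟨r.insertNth (-(∑ i, A (r.succAbove i) j1 * u' i) / a) u', ?_, fun i => by simp⟩
        rw [mem_lker']
        intro j
        rw [Fin.sum_univ_succAbove _ r]
        simp only [Fin.insertNth_apply_same, Fin.insertNth_apply_succAbove]
        by_cases hj : j = j1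
        · subst hj
          rw [← ha]
          field_simp
          ring
        · have h1 := h j
          rw [key j hj] at h1
          have : a ≠ 0 := hj1
          field_simp
          linarith
      · rintro ⟨u, hu, h⟩ j
        rw [mem_lker'] at hu
        by_cases hj : j = j1
        · subst hj
          exact key1
        · rw [key j hj]
          have h1 := hu j
          have h2 := hu j1
          rw [Fin.sum_univ_succAbove _ r] at h1 h2
          simp only [h]
          rw [← ha] at h2
          linear_combination a * h1 - A r j * h2

/-- Removal of the coordinates outside the image of `ψ`. -/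
theorem con : S_CON := by
  intro K m
  induction m with
  | zero =>
    intro n ψ A hψ hA
    refine ⟨n, A.submatrix ψ id, fun i => hA (ψ i), fun x => ?_⟩
    have hK : IsEmpty (Fin K) := ⟨fun i => (ψ i).elim0⟩
    rw [mem_lker']
    constructor
    · intro _
      refine ⟨0, zero_mem _, fun i => (hK.false i).elim⟩
    · intro _ j
      exact Finset.sum_eq_zero fun i _ => (hK.false i).elim
  | succ m ih =>
    intro n ψ A hψ hA
    by_cases hs : Function.Surjective ψ
    · refine ⟨n, A.submatrix ψ id, fun i => hA (ψ i), fun x => ?_⟩
      set e := Equiv.ofBijective ψ ⟨hψ, hs⟩ with he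
      have hsum : ∀ (u : Fin (m + 1) → ℝ) (j : Fin n), ∑ i, A i j * u i =
          ∑ i, A (ψ i) j * u (ψ i) := fun u j => (Equiv.sum_comp e _).symm
      rw [mem_lker']
      simp only [Matrix.submatrix_apply, id]
      constructor
      · intro h
        refine ⟨fun i => x (e.symm i), ?_, fun i => ?_⟩
        · rw [mem_lker']
          intro j
          rw [hsum]
          have h1 : ∀ i, e.symm (ψ i) = i := fun i => e.symm_apply_apply i
          simp only [h1]
          exact h j
        · exact congrArg x (e.symm_apply_apply i).symm
      · rintro ⟨u, hu, h⟩ j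
        rw [mem_lker'] at hu
        have h1 := hu j
        rw [hsum] at h1
        simp only [h]
        exact h1
    · unfold Function.Surjective at hs
      push Not at hs
      obtain ⟨r, hr⟩ := hs
      have hex : ∀ i, ∃ z, r.succAbove z = ψ i := fun i => Fin.exists_succAbove_eq (hr i)
      choose ψ' hψ' using hex
      obtain ⟨A', h1, h2⟩ := elim A hA r
      have hinj : Function.Injective ψ' := by
        intro i j hij
        apply hψ
        rw [← hψ', ← hψ', hij]
      obtain ⟨n', B, hB, hB2⟩ := ih n ψ' A' hinj h1
      refine ⟨n', B, hB, fun x => ?_⟩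
      rw [hB2]
      constructor
      · rintro ⟨u', hu', h⟩
        obtain ⟨u, hu, hh⟩ := (h2 u').1 hu'
        refine ⟨u, hu, fun i => ?_⟩
        rw [h, hh, hψ']
      · rintro ⟨u, hu, h⟩
        refine ⟨fun i => u (r.succAbove i), (h2 _).2 ⟨u, hu, fun _ => rfl⟩, fun i => ?_⟩
        rw [h, ← hψ']

end Pool.Agent.L7h50.TV
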