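import Pool.Agent.L7h50.TV.Tro
import Pool.Agent.L7h39.TV.Stm
import Pool.Agent.L7h32.TV.Red

set_option autoImplicit false

/-!
# Few pairs of costs dominate all pairs
-/

namespace Pool.Agent.L7h50.TV

open Pool.Agent.L7h39.TV

variable {E N : Type} {tl hd : E → Option N} {g k a b : E → ℝ} {M0 : ℕ} {v : N}

theorem fb_finite [Fintype E] (L : ℕ) : {p : ℝ × ℝ | Fb tl hd g k L M0 a b v p}.Finite := by
  have hL : {l : List E | l.length ≤ L}.Finite := List.finite_length_le E L
  have hM : {l : List E | l.length ≤ M0}.Finite := List.finite_length_le E M0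
  have f1 := hL.image2 (fun (P : List E) (s : E) =>
    (max (mxl k a P) (wt k P * a s), max (mxl k b P) (wt k P * b s))) (Set.finite_univ (α := E))
  have f2 := hL.image2 (fun (P z : List E) =>
    (max (mxl k a P) (wt k P * mxl k a z), max (mxl k b P) (wt k P * mxl k b z))) hL
  have f3 := hL.image2 (fun (P z : List E) =>
    (max (mxl k a P) (wt k P * ((1 - wt g z)⁻¹ * mxl k a z)),
      max (mxl k b P) (wt k P * ((1 - wt g z)⁻¹ * mxl k b z)))) hM
  refine (f1.union (f2.union f3)).subset ?_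
  rintro p (⟨P, w, s, h1, h2, h3, h4, e⟩ | ⟨P, w, z, h1, h2, h3, h4, h5, e⟩ |
      ⟨P, w, z, h1, h2, h3, h4, h5, h6, e⟩)
  · exact Or.inl ⟨P, h2, s, Set.mem_univ s, e.symm⟩
  · exact Or.inr (Or.inl ⟨P, h2, z, h4, e.symm⟩)
  · exact Or.inr (Or.inr ⟨P, h2, z, h4, e.symm⟩)

theorem s_TRO_of (hred : S_RED) : S_TRO := by
  intro E N _ _ _ tl hd g k a b M0 v hg hk ha hb
  classical
  set S : Set (ℝ × ℝ) := {p | Fb tl hd g k (Fintype.card E) M0 a b v p} with hS
  have hfin : S.Finite := fb_finite _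
  set D : Finset (ℝ × ℝ) := hfin.toFinset.filter (fun p => Minimal (· ∈ S) p) with hD
  have memD : ∀ p, p ∈ D ↔ Minimal (· ∈ S) p := by
    intro p
    rw [hD, Finset.mem_filter, Set.Finite.mem_toFinset]
    exact ⟨fun h => h.2, fun h => ⟨h.1, h⟩⟩
  -- minimal among all ways
  have dom : ∀ L p, Fb tl hd g k L M0 a b v p → ∃ p' ∈ D, p' ≤ p := by
    intro L p hp
    obtain ⟨p1, h1, h2, h3⟩ := hred E N tl hd g k a b L M0 v p hk ha hb hp
    obtain ⟨m, hm1, hm2⟩ := hfin.exists_le_minimal (a := p1) h1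
    exact ⟨m, (memD m).2 hm2, hm1.trans ⟨h2, h3⟩⟩
  have hmin : ∀ p ∈ D, ∀ q, Wy tl hd g k M0 a b v q → q ≤ p → q = p := by
    rintro p hp q ⟨L, hq⟩ hqp
    obtain ⟨m, hm1, hm2⟩ := dom L q hq
    have h1 : p ≤ m := ((memD p).1 hp).2 ((memD m).1 hm1).1 (hm2.trans hqp)
    exact le_antisymm hqp (h1.trans hm2)
  refine ⟨D, ?_, fun p hp => ((memD p).1 hp).1, fun L p hp => ?_⟩
  · have hpat : ∀ p, p ∈ D → ∃ t, Has tl hd g k M0 a b v p t := fun p hp =>
      has_pat hg hk ha hb ⟨_, ((memD p).1 hp).1⟩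
    rcases D.eq_empty_or_nonempty with h0 | ⟨p0, hp0⟩
    · rw [h0]; simp
    · have : ∀ p, ∃ t, p ∈ D → Has tl hd g k M0 a b v p t := by
        intro p
        by_cases hp : p ∈ D
        · obtain ⟨t, ht⟩ := hpat p hp
          exact ⟨t, fun _ => ht⟩
        · exact ⟨Sum.inl true, fun h => absurd h hp⟩
      choose t ht using this
      have hinj : Set.InjOn t D := by
        intro p hp p' hp' hpp
        by_contra hne
        have w1 : Wy tl hd g k M0 a b v p := ⟨_, ((memD p).1 hp).1⟩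
        have w2 : Wy tl hd g k M0 a b v p' := ⟨_, ((memD p').1 hp').1⟩
        have t1 := ht p hp
        have t2 := ht p' hp'
        rw [← hpp] at t2
        have n1 : ¬ p ≤ p' := fun h => hne (hmin p' hp' p w1 h)
        have n2 : ¬ p' ≤ p := fun h => hne (hmin p hp p' w2 h).symm
        have key : ∀ q, Wy tl hd g k M0 a b v q →
            ¬ ((q ≤ p' ∧ q ≠ p') ∨ (q ≤ p ∧ q ≠ p)) := by
          rintro q hq (⟨h1, h2⟩ | ⟨h1, h2⟩)
          · exact h2 (hmin p' hp' q hq h1)
          · exact h2 (hmin p hp q hq h1)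
        rcases lt_trichotomy p.1 p'.1 with h | h | h
        · have h2 : p'.2 < p.2 := by
            by_contra hcon
            push Not at hcon
            exact n1 ⟨h.le, hcon⟩
          obtain ⟨q, hq1, hq2⟩ := has_ex hk ha hb (t p) t1 t2 h h2 w1 w2
          exact key q hq1 hq2
        · rcases le_total p.2 p'.2 with h2 | h2
          · exact n1 ⟨h.le, h2⟩
          · exact n2 ⟨h.ge, h2⟩
        · have h2 : p.2 < p'.2 := by
            by_contra hcon
            push Not at hcon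
            exact n2 ⟨h.le, hcon⟩
          obtain ⟨q, hq1, hq2⟩ := has_ex hk ha hb (t p) t2 t1 h h2 w2 w1
          exact key q hq1 hq2.symm
      have hcard : D.card ≤ (Finset.univ : Finset (Pat E)).card :=
        Finset.card_le_card_of_injOn t (fun p _ => Finset.mem_coe.2 (Finset.mem_univ _)) hinj
      rw [Finset.card_univ] at hcard
      simp only [Pat, Fintype.card_sum, Fintype.card_prod, Fintype.card_bool] at hcard
      nlinarith
  · obtain ⟨m, h1, h2⟩ := dom L p hp
    exact ⟨m, h1, h2.1, h2.2⟩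

theorem s_TRO : S_TRO := s_TRO_of Pool.Agent.L7h32.TV.red

end Pool.Agent.L7h50.TV
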