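import Pool.Agent.L7h39.TV.Defs

set_option autoImplicit false

/-!
# Basic facts on walks and their costs
-/

namespace Pool.Agent.L7h50.TV

open Pool.Agent.L7h39.TV

variable {E N : Type} {k c : E → ℝ} {tl hd : E → Option N}

theorem wt_nil : wt k [] = 1 := by simp [wt]

theorem wt_cons (f : E) (l : List E) : wt k (f :: l) = k f * wt k l := by simp [wt]

theorem wt_append (l₁ l₂ : List E) : wt k (l₁ ++ l₂) = wt k l₁ * wt k l₂ := by simp [wt]

theorem wt_pos (hk : ∀ f, 0 < k f) (l : List E) : 0 < wt k l := by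
  induction l with
  | nil => simp [wt]
  | cons f l ih => rw [wt_cons]; exact mul_pos (hk f) ih

theorem mxl_nil : mxl k c [] = 0 := rfl

theorem mxl_cons (f : E) (l : List E) : mxl k c (f :: l) = max (c f) (k f * mxl k c l) := rfl

theorem mxl_nonneg (hc : ∀ f, 0 ≤ c f) (l : List E) : 0 ≤ mxl k c l := by
  cases l with
  | nil => exact le_rfl
  | cons f l => exact (hc f).trans (le_max_left _ _)

theorem mxl_one (hc : ∀ f, 0 ≤ c f) (f : E) : mxl k c [f] = c f := by
  rw [mxl_cons, mxl_nil, mul_zero]; exact max_eq_left (hc f)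

theorem mxl_append (hk : ∀ f, 0 < k f) (hc : ∀ f, 0 ≤ c f) (l₁ l₂ : List E) :
    mxl k c (l₁ ++ l₂) = max (mxl k c l₁) (wt k l₁ * mxl k c l₂) := by
  induction l₁ with
  | nil => simp [wt_nil, mxl_nil, mxl_nonneg hc]
  | cons f l ih =>
    rw [List.cons_append, mxl_cons, mxl_cons, ih, wt_cons, mul_max_of_nonneg _ _ (hk f).le,
      max_assoc, mul_assoc]

theorem mxl_le_append_left (hk : ∀ f, 0 < k f) (hc : ∀ f, 0 ≤ c f) (l₁ l₂ : List E) :
    mxl k c l₁ ≤ mxl k c (l₁ ++ l₂) := by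
  rw [mxl_append hk hc]; exact le_max_left _ _

theorem mxl_le_append_right (hk : ∀ f, 0 < k f) (hc : ∀ f, 0 ≤ c f) (l₁ l₂ : List E) :
    wt k l₁ * mxl k c l₂ ≤ mxl k c (l₁ ++ l₂) := by
  rw [mxl_append hk hc]; exact le_max_right _ _

/-- The first place where the largest cost is attained. -/
theorem first_att (hk : ∀ f, 0 < k f) (hc : ∀ f, 0 ≤ c f) (l : List E) (h : 0 < mxl k c l) :
    ∃ (x : List E) (f : E) (n : List E), l = x ++ f :: n ∧ mxl k c x < mxl k c l ∧
      mxl k c l = wt k x * c f := by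
  induction l with
  | nil => exact absurd h (lt_irrefl _)
  | cons f l ih =>
    by_cases h1 : k f * mxl k c l ≤ c f
    · refine ⟨[], f, l, rfl, h, ?_⟩
      rw [mxl_cons, max_eq_left h1, wt_nil, one_mul]
    · push Not at h1
      have h2 : 0 < mxl k c l := by
        have h3 : 0 < k f * mxl k c l := (hc f).trans_lt h1
        exact (pos_iff_pos_of_mul_pos h3).1 (hk f)
      obtain ⟨x, f', n, e1, e2, e3⟩ := ih h2
      refine ⟨f :: x, f', n, by rw [e1]; rfl, ?_, ?_⟩
      · rw [mxl_cons, mxl_cons, max_eq_right h1.le]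
        exact max_lt h1 (mul_lt_mul_of_pos_left e2 (hk f))
      · rw [mxl_cons, max_eq_right h1.le, wt_cons, mul_assoc, ← e3]

/-- After the first place where the largest cost is attained, the costs are at most the one
there. -/
theorem mxl_rest (hk : ∀ f, 0 < k f) (hc : ∀ f, 0 ≤ c f) {x n : List E} {f : E}
    (h : mxl k c (x ++ f :: n) ≤ wt k x * c f) : mxl k c (f :: n) ≤ c f := by
  have h1 := (mxl_le_append_right hk hc x (f :: n)).trans h
  exact le_of_mul_le_mul_left h1 (wt_pos hk x)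

theorem wk_append {u v w : N} {l₁ l₂ : List E} (h₁ : Wk tl hd u l₁ v) (h₂ : Wk tl hd v l₂ w) :
    Wk tl hd u (l₁ ++ l₂) w := by
  induction h₁ with
  | nil v => exact h₂
  | cons a b _ ih => exact Wk.cons a b (ih h₂)

theorem wk_split {u w : N} {l₁ l₂ : List E} (h : Wk tl hd u (l₁ ++ l₂) w) :
    ∃ v, Wk tl hd u l₁ v ∧ Wk tl hd v l₂ w := by
  induction l₁ generalizing u with
  | nil => exact ⟨u, Wk.nil u, h⟩
  | cons f l ih =>
    rw [List.cons_append] at h
    cases h with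
    | cons a b h' =>
      obtain ⟨v, h1, h2⟩ := ih h'
      exact ⟨v, Wk.cons a b h1, h2⟩

theorem wk_head {u w : N} {l : List E} {f : E} (h : Wk tl hd u (f :: l) w) : tl f = some u := by
  cases h with
  | cons a b h' => exact a

theorem wk_one {u v : N} {f : E} (h1 : tl f = some u) (h2 : hd f = some v) :
    Wk tl hd u [f] v := Wk.cons h1 h2 (Wk.nil v)

theorem wk_reverse {u w : N} {l : List E} (h : Wk tl hd u l w) : Wk hd tl w l.reverse u := by
  induction h with
  | nil v => exact Wk.nil v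
  | cons a b _ ih =>
    rw [List.reverse_cons]
    exact wk_append ih (wk_one b a)

theorem wt_reverse (l : List E) : wt (fun f => (k f)⁻¹) l.reverse = (wt k l)⁻¹ := by
  induction l with
  | nil => simp [wt]
  | cons f l ih =>
    rw [List.reverse_cons, wt_append, ih, wt_cons, wt_cons, wt_nil, mul_inv, mul_one, mul_comm]

theorem mxl_reverse (hk : ∀ f, 0 < k f) (hc : ∀ f, 0 ≤ c f) (l : List E) :
    mxl (fun f => (k f)⁻¹) (fun f => c f / k f) l.reverse = mxl k c l / wt k l := by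
  have hk' : ∀ f, 0 < (fun f => (k f)⁻¹) f := fun f => inv_pos.2 (hk f)
  have hc' : ∀ f, 0 ≤ (fun f => c f / k f) f := fun f => div_nonneg (hc f) (hk f).le
  induction l with
  | nil => simp [mxl_nil]
  | cons f l ih =>
    rw [List.reverse_cons, mxl_append hk' hc', ih, mxl_one hc', wt_reverse, mxl_cons, wt_cons,
      div_eq_mul_inv _ (k f * wt k l),
      max_mul_of_nonneg _ _ (inv_nonneg.2 (mul_pos (hk f) (wt_pos hk l)).le), max_comm]
    have h1 := (hk f).ne'
    have h2 := (wt_pos hk l).ne'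
    congr 1
    · field_simp
    · field_simp

/-- Exchange of the two costs. -/
theorem fb_swap {g a b : E → ℝ} {L M0 : ℕ} {v : N} {p : ℝ × ℝ}
    (h : Fb tl hd g k L M0 a b v p) : Fb tl hd g k L M0 b a v p.swap := by
  rcases h with ⟨P, w, s, h1, h2, h3, h4, rfl⟩ | ⟨P, w, z, h1, h2, h3, h4, h5, rfl⟩ |
    ⟨P, w, z, h1, h2, h3, h4, h5, h6, rfl⟩
  · exact Or.inl ⟨P, w, s, h1, h2, h3, h4, rfl⟩
  · exact Or.inr (Or.inl ⟨P, w, z, h1, h2, h3, h4, h5, rfl⟩)
  · exact Or.inr (Or.inr ⟨P, w, z, h1, h2, h3, h4, h5, h6, rfl⟩)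

/-- Ways to dispose of a unit at `v`, any length. -/
def Wy (tl hd : E → Option N) (g k : E → ℝ) (M0 : ℕ) (a b : E → ℝ) (v : N) (p : ℝ × ℝ) : Prop :=
  ∃ L, Fb tl hd g k L M0 a b v p

theorem wy_swap {g a b : E → ℝ} {M0 : ℕ} {v : N} {p : ℝ × ℝ}
    (h : Wy tl hd g k M0 a b v p) : Wy tl hd g k M0 b a v p.swap :=
  ⟨h.choose, fb_swap h.choose_spec⟩

/-- A walk followed by a way to dispose of a unit. -/
theorem wy_pre (hk : ∀ f, 0 < k f) {g a b : E → ℝ} (ha : ∀ f, 0 ≤ a f) (hb : ∀ f, 0 ≤ b f)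
    {M0 : ℕ} {u v : N} {x : List E} {r : ℝ × ℝ}
    (hx : Wk tl hd v x u) (h : Wy tl hd g k M0 a b u r) :
    Wy tl hd g k M0 a b v (max (mxl k a x) (wt k x * r.1), max (mxl k b x) (wt k x * r.2)) := by
  have hw := (wt_pos hk x).le
  obtain ⟨L, h⟩ := h
  refine ⟨x.length + L, ?_⟩
  rcases h with ⟨P, w, s, h1, h2, h3, h4, rfl⟩ | ⟨P, w, z, h1, h2, h3, h4, h5, rfl⟩ |
    ⟨P, w, z, h1, h2, h3, h4, h5, h6, rfl⟩
  · refine Or.inl ⟨x ++ P, w, s, wk_append hx h1, by simp; omega, h3, h4, ?_⟩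
    rw [mxl_append hk ha, mxl_append hk hb, wt_append]
    dsimp only
    rw [mul_max_of_nonneg _ _ hw, mul_max_of_nonneg _ _ hw, max_assoc, max_assoc, mul_assoc,
      mul_assoc]
  · refine Or.inr (Or.inl ⟨x ++ P, w, z, wk_append hx h1, by simp; omega, h3, by omega, h5, ?_⟩)
    rw [mxl_append hk ha, mxl_append hk hb, wt_append]
    dsimp only
    rw [mul_max_of_nonneg _ _ hw, mul_max_of_nonneg _ _ hw, max_assoc, max_assoc, mul_assoc,
      mul_assoc]
  · refine Or.inr (Or.inr ⟨x ++ P, w, z, wk_append hx h1, by simp; omega, h3, h4, h5, h6, ?_⟩)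
    rw [mxl_append hk ha, mxl_append hk hb, wt_append]
    dsimp only
    rw [mul_max_of_nonneg _ _ hw, mul_max_of_nonneg _ _ hw, max_assoc, max_assoc, mul_assoc,
      mul_assoc]

/-- A closed walk of weight less than one. -/
theorem wy_cyc {g a b : E → ℝ} (ha : ∀ f, 0 ≤ a f) (hb : ∀ f, 0 ≤ b f)
    {M0 : ℕ} {u : N} {z : List E} (hz : Wk tl hd u z u) (h : wt k z < 1) :
    Wy tl hd g k M0 a b u (mxl k a z, mxl k b z) := by
  refine ⟨z.length, Or.inr (Or.inl ⟨[], u, z, Wk.nil u, by simp, hz, le_rfl, h, ?_⟩)⟩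
  rw [mxl_nil, wt_nil, one_mul, mxl_nil, one_mul, max_eq_right (mxl_nonneg ha z),
    max_eq_right (mxl_nonneg hb z)]

end Pool.Agent.L7h50.TV
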