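import Pool.Agent.L7h50.TV.Tro

set_option autoImplicit false

/-!
# Closed walks through an arc: the exchange argument
-/

namespace Pool.Agent.L7h50.TV

open Pool.Agent.L7h39.TV

variable {E N : Type}

/-- The second alternative. -/
def Alt (tl hd : E → Option N) (g k : E → ℝ) (M0 : ℕ) (a b : E → ℝ) (e : E) (p q : N)
    (A B : ℝ) : Prop :=
  ∃ p₁ p₂ : ℝ × ℝ, Wy tl hd g k M0 a b q p₁ ∧
    Wy hd tl (fun f => (g f)⁻¹) (fun f => (k f)⁻¹) M0 (fun f => a f / k f)
      (fun f => b f / k f) p p₂ ∧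
    k e * p₁.1 ≤ A ∧ p₂.1 ≤ A ∧ k e * p₁.2 ≤ B ∧ p₂.2 ≤ B

theorem alt_swap {tl hd : E → Option N} {g k : E → ℝ} {M0 : ℕ} {a b : E → ℝ} {e : E} {p q : N}
    {A B : ℝ} (h : Alt tl hd g k M0 a b e p q A B) : Alt tl hd g k M0 b a e p q B A := by
  obtain ⟨p₁, p₂, h1, h2, h3, h4, h5, h6⟩ := h
  exact ⟨p₁.swap, p₂.swap, wy_swap h1, wy_swap h2, h5, h6, h3, h4⟩

theorem bet_ex {tl hd : E → Option N} {g k : E → ℝ} {M0 : ℕ} {a b : E → ℝ} {e : E} {p q : N}
    (hk : ∀ f, 0 < k f) (ha : ∀ f, 0 ≤ a f) (hb : ∀ f, 0 ≤ b f)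
    (hq : hd e = some q) {x n x' n' : List E} {h : E} {A B A' B' : ℝ}
    (hz : Wk tl hd p (x ++ h :: n) p) (hz' : Wk tl hd p (x' ++ h :: n') p)
    (hw : wt k (x ++ h :: n) = 1) (hw' : wt k (x' ++ h :: n') = 1)
    (he' : ∃ P', x' ++ h :: n' = e :: P')
    (hA : mxl k a (x ++ h :: n) ≤ A) (hB : mxl k b (x ++ h :: n) ≤ B) (hBe : B = wt k x * b h)
    (hA' : mxl k a (x' ++ h :: n') ≤ A') (hB' : mxl k b (x' ++ h :: n') ≤ B')
    (hBe' : B' = wt k x' * b h) (hAA : A ≤ A') (hBB : B' < B) :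
    Alt tl hd g k M0 a b e p q A' B' := by
  have wx := wt_pos hk x
  have wx' := wt_pos hk x'
  have wn := wt_pos hk (h :: n)
  have wn' := wt_pos hk (h :: n')
  obtain ⟨u, c1, c2⟩ := wk_split hz
  obtain ⟨u', c3, c4⟩ := wk_split hz'
  have huu : u = u' := Option.some.inj ((wk_head c2).symm.trans (wk_head c4))
  subst huu
  have hxx : wt k x' < wt k x := by
    rw [hBe, hBe'] at hBB
    exact lt_of_mul_lt_mul_right hBB (hb h)
  rw [wt_append] at hw hw'
  have hA0' : 0 ≤ A' := (mxl_nonneg ha _).trans hA'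
  -- the first closed walk
  obtain ⟨n'', hn''⟩ : ∃ n'', x' ++ h :: n = e :: n'' := by
    obtain ⟨P', hP'⟩ := he'
    cases x' with
    | nil =>
      rw [List.nil_append] at hP' ⊢
      exact ⟨n, by rw [(List.cons.inj hP').1]⟩
    | cons y x'' =>
      rw [List.cons_append] at hP' ⊢
      exact ⟨x'' ++ h :: n, by rw [(List.cons.inj hP').1]⟩
  have hC : Wk tl hd p (x' ++ h :: n) p := wk_append c3 c2
  have hCw : wt k (x' ++ h :: n) < 1 := by
    rw [wt_append, ← hw]
    exact mul_lt_mul_of_pos_right hxx wn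
  have hCa : mxl k a (x' ++ h :: n) ≤ A' := by
    rw [mxl_append hk ha]
    refine max_le ((mxl_le_append_left hk ha _ _).trans hA') ?_
    refine ((mul_le_mul_of_nonneg_right hxx.le (mxl_nonneg ha _)).trans ?_).trans hAA
    exact (mxl_le_append_right hk ha _ _).trans hA
  have hCb : mxl k b (x' ++ h :: n) ≤ B' := by
    rw [mxl_append hk hb]
    refine max_le ((mxl_le_append_left hk hb _ _).trans hB') ?_
    rw [hBe']
    exact mul_le_mul_of_nonneg_left (mxl_rest hk hb (hB.trans hBe.le)) wx'.le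
  have hrot : ∀ {c : E → ℝ}, (∀ f, 0 ≤ c f) →
      k e * mxl k c (n'' ++ [e]) ≤ mxl k c (x' ++ h :: n) := by
    intro c hc
    have h1 := rot_le (x := [e]) (y := n'') hk hc
      (by rw [List.singleton_append, ← hn'']; exact hCw.le)
    rw [List.singleton_append, ← hn''] at h1
    simpa [wt] using h1
  have hz1 : Wk tl hd q (n'' ++ [e]) q := by
    rw [hn''] at hC
    have hp := wk_head hC
    cases hC with
    | cons a1 b1 h' =>
      have := Option.some.inj (b1.symm.trans hq)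
      subst this
      exact wk_append h' (wk_one hp hq)
  have hz1w : wt k (n'' ++ [e]) < 1 := by
    rw [hn'', wt_cons] at hCw
    rw [wt_append, wt_cons, wt_nil, mul_one, mul_comm]; exact hCw
  -- the second closed walk
  have hD : Wk tl hd p (x ++ h :: n') p := wk_append c1 c4
  have wD := wt_pos hk (x ++ h :: n')
  have hDx : wt k (x ++ h :: n') * wt k x' = wt k x := by
    rw [wt_append, mul_assoc, mul_comm (wt k (h :: n')), hw', mul_one]
  have hDw : 1 < wt k (x ++ h :: n') := by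
    by_contra hcon
    push Not at hcon
    have := mul_le_mul_of_nonneg_right hcon wx'.le
    rw [hDx] at this
    linarith
  have hDa : mxl k a (x ++ h :: n') ≤ A' * wt k (x ++ h :: n') := by
    rw [mxl_append hk ha]
    refine max_le ?_ ?_
    · refine (((mxl_le_append_left hk ha _ (h :: n)).trans hA).trans hAA).trans ?_
      exact le_mul_of_one_le_right hA0' hDw.le
    · nth_rewrite 1 [← hDx]
      rw [mul_assoc, mul_comm A']
      exact mul_le_mul_of_nonneg_left ((mxl_le_append_right hk ha _ _).trans hA') wD.le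
  have hDb : mxl k b (x ++ h :: n') ≤ B' * wt k (x ++ h :: n') := by
    rw [mxl_append hk hb]
    refine max_le ?_ ?_
    · refine ((mxl_le_append_left hk hb _ (h :: n)).trans hB).trans ?_
      rw [hBe, ← hDx, hBe']
      exact le_of_eq (by ring)
    · nth_rewrite 1 [← hDx]
      rw [mul_assoc, mul_comm B']
      exact mul_le_mul_of_nonneg_left ((mxl_le_append_right hk hb _ _).trans hB') wD.le
  have hinv : wt (fun f => (k f)⁻¹) (x ++ h :: n').reverse < 1 := by
    rw [wt_reverse]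
    exact inv_lt_one_of_one_lt₀ hDw
  refine ⟨_, _, wy_cyc ha hb hz1 hz1w, wy_cyc (fun f => div_nonneg (ha f) (hk f).le)
    (fun f => div_nonneg (hb f) (hk f).le) (wk_reverse hD) hinv, (hrot ha).trans hCa, ?_,
    (hrot hb).trans hCb, ?_⟩
  · dsimp only
    rw [mxl_reverse hk ha, div_le_iff₀ wD]; exact hDa
  · dsimp only
    rw [mxl_reverse hk hb, div_le_iff₀ wD]; exact hDb

/-- The pattern of a closed walk. -/
def Has2 (k : E → ℝ) (a b : E → ℝ) (η : List E → ℝ) (α β : ℝ) (z : List E) :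
    Option (E ⊕ E) → Prop
  | none => mxl k a z ≤ η z * α ∧ mxl k b z ≤ η z * β
  | some (Sum.inl h) => ∃ x n, z = x ++ h :: n ∧ max (mxl k b z) (η z * β) = wt k x * b h
  | some (Sum.inr f) => ∃ x n, z = x ++ f :: n ∧ max (mxl k a z) (η z * α) = wt k x * a f

theorem has2_ex {k : E → ℝ} {a b : E → ℝ} (hk : ∀ f, 0 < k f) (ha : ∀ f, 0 ≤ a f)
    (hb : ∀ f, 0 ≤ b f) {η : List E → ℝ} {α β : ℝ} {z : List E} (hη : 0 ≤ η z) (hα : 0 ≤ α)
    (hβ : 0 ≤ β) : ∃ t, Has2 k a b η α β z t := by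
  rcases lt_or_ge (η z * β) (mxl k b z) with h1 | h1
  · obtain ⟨x, h, n, e1, -, e3⟩ := first_att hk hb z ((mul_nonneg hη hβ).trans_lt h1)
    exact ⟨some (Sum.inl h), x, n, e1, by rw [max_eq_left h1.le]; exact e3⟩
  rcases lt_or_ge (η z * α) (mxl k a z) with h2 | h2
  · obtain ⟨x, h, n, e1, -, e3⟩ := first_att hk ha z ((mul_nonneg hη hα).trans_lt h2)
    exact ⟨some (Sum.inr h), x, n, e1, by rw [max_eq_left h2.le]; exact e3⟩
  exact ⟨none, h2, h1⟩

theorem s_BET_aux {E N : Type} [Fintype E]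
    (tl hd : E → Option N) (g k a b : E → ℝ) (M0 : ℕ) (e : E) (p q : N) (Z : Finset (List E))
    (η : List E → ℝ) (α β : ℝ)
    (hk : ∀ f, 0 < k f) (ha : ∀ f, 0 ≤ a f) (hb : ∀ f, 0 ≤ b f)
    (hp : tl e = some p) (hq : hd e = some q)
    (hZ : ∀ z ∈ Z, (∃ P, z = e :: P ∧ Wk tl hd q P p) ∧ wt k z = 1 ∧ 0 ≤ η z) (hα : 0 ≤ α)
    (hβ : 0 ≤ β) :
    ∃ Z' ⊆ Z, Z'.card ≤ 2 * Fintype.card E + 1 ∧ ∀ z ∈ Z,
      (∃ z' ∈ Z', max (mxl k a z') (η z' * α) ≤ max (mxl k a z) (η z * α) ∧
        max (mxl k b z') (η z' * β) ≤ max (mxl k b z) (η z * β)) ∨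
      Alt tl hd g k M0 a b e p q (max (mxl k a z) (η z * α)) (max (mxl k b z) (η z * β)) := by
  classical
  set pr : List E → ℝ × ℝ := fun z => (max (mxl k a z) (η z * α), max (mxl k b z) (η z * β))
    with hpr
  set Z1 : Finset (List E) := Z.filter (fun z => ¬ Alt tl hd g k M0 a b e p q (pr z).1 (pr z).2)
    with hZ1
  set S : Finset (ℝ × ℝ) := Z1.image pr with hS
  set D : Finset (ℝ × ℝ) := S.filter (fun d => Minimal (· ∈ S) d) with hD
  have memD : ∀ d, d ∈ D ↔ Minimal (· ∈ S) d := by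
    intro d
    rw [hD, Finset.mem_filter]
    exact ⟨fun h => h.2, fun h => ⟨h.1, h⟩⟩
  have hch : ∀ d, ∃ z, d ∈ D → z ∈ Z1 ∧ pr z = d := by
    intro d
    by_cases hd' : d ∈ D
    · have := ((memD d).1 hd').1
      obtain ⟨z, hz1, hz2⟩ := Finset.mem_image.1 this
      exact ⟨z, fun _ => ⟨hz1, hz2⟩⟩
    · exact ⟨[], fun h => absurd h hd'⟩
  choose ζ hζ using hch
  have hZ1Z : Z1 ⊆ Z := Finset.filter_subset _ _
  refine ⟨D.image ζ, ?_, ?_, ?_⟩
  · intro z hz
    obtain ⟨d, hd1, rfl⟩ := Finset.mem_image.1 hz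
    exact hZ1Z (hζ d hd1).1
  · refine Finset.card_image_le.trans ?_
    have hpat : ∀ d, ∃ t, d ∈ D → Has2 k a b η α β (ζ d) t := by
      intro d
      by_cases hd' : d ∈ D
      · obtain ⟨t, ht⟩ := has2_ex (a := a) (b := b) (z := ζ d) hk ha hb
          (hZ _ (hZ1Z (hζ d hd').1)).2.2 hα hβ
        exact ⟨t, fun _ => ht⟩
      · exact ⟨none, fun h => absurd h hd'⟩
    choose t ht using hpat
    -- the exchange
    have key : ∀ d ∈ D, ∀ d' ∈ D, t d = t d' → d.1 < d'.1 → d'.2 < d.2 → False := by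
      intro d hd1 d' hd2 htt h1 h2
      have H1 := ht d hd1
      have H2 := ht d' hd2
      obtain ⟨m1, e1⟩ := hζ d hd1
      obtain ⟨m2, e2⟩ := hζ d' hd2
      have n1 := (Finset.mem_filter.1 m1).2
      have n2 := (Finset.mem_filter.1 m2).2
      obtain ⟨⟨P, w1, w2⟩, w3, w4⟩ := hZ _ (hZ1Z m1)
      obtain ⟨⟨P', w1', w2'⟩, w3', w4'⟩ := hZ _ (hZ1Z m2)
      rw [e1] at n1
      rw [e2] at n2
      have W1 : Wk tl hd p (ζ d) p := by rw [w1]; exact Wk.cons hp hq w2
      have W2 : Wk tl hd p (ζ d') p := by rw [w1']; exact Wk.cons hp hq w2'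
      have d1 : d.1 = max (mxl k a (ζ d)) (η (ζ d) * α) := by
        conv_lhs => rw [← e1]
      have d2 : d.2 = max (mxl k b (ζ d)) (η (ζ d) * β) := by
        conv_lhs => rw [← e1]
      have d1' : d'.1 = max (mxl k a (ζ d')) (η (ζ d') * α) := by
        conv_lhs => rw [← e2]
      have d2' : d'.2 = max (mxl k b (ζ d')) (η (ζ d') * β) := by
        conv_lhs => rw [← e2]
      rw [← htt] at H2
      rcases hT : t d with _ | (h | f)
      · rw [hT] at H1 H2
        obtain ⟨a1, a2⟩ := H1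
        obtain ⟨b1, b2⟩ := H2
        rw [max_eq_right a1] at d1
        rw [max_eq_right a2] at d2
        rw [max_eq_right b1] at d1'
        rw [max_eq_right b2] at d2'
        rw [d1, d1'] at h1
        rw [d2, d2'] at h2
        have := lt_of_mul_lt_mul_right h1 hα
        have := lt_of_mul_lt_mul_right h2 hβ
        linarith
      · rw [hT] at H1 H2
        obtain ⟨x, n, a1, a2⟩ := H1
        obtain ⟨x', n', b1, b2⟩ := H2
        rw [← d2] at a2
        rw [← d2'] at b2
        refine n2 (bet_ex (x := x) (n := n) (x' := x') (n' := n') (h := h) (A := d.1)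
          (B := d.2) hk ha hb hq (by rw [← a1]; exact W1) (by rw [← b1]; exact W2)
          (by rw [← a1]; exact w3) (by rw [← b1]; exact w3') ⟨P', by rw [← b1]; exact w1'⟩
          ?_ ?_ a2 ?_ ?_ b2 h1.le h2)
        · rw [← a1, d1]; exact le_max_left _ _
        · rw [← a1, d2]; exact le_max_left _ _
        · rw [← b1, d1']; exact le_max_left _ _
        · rw [← b1, d2']; exact le_max_left _ _
      · rw [hT] at H1 H2
        obtain ⟨x, n, a1, a2⟩ := H1
        obtain ⟨x', n', b1, b2⟩ := H2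
        rw [← d1] at a2
        rw [← d1'] at b2
        refine n1 (alt_swap (bet_ex (x := x') (n := n') (x' := x) (n' := n) (h := f)
          (A := d'.2) (B := d'.1) hk hb ha hq (by rw [← b1]; exact W2)
          (by rw [← a1]; exact W1) (by rw [← b1]; exact w3') (by rw [← a1]; exact w3)
          ⟨P, by rw [← a1]; exact w1⟩ ?_ ?_ b2 ?_ ?_ a2 h2.le h1))
        · rw [← b1, d2']; exact le_max_left _ _
        · rw [← b1, d1']; exact le_max_left _ _
        · rw [← a1, d2]; exact le_max_left _ _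
        · rw [← a1, d1]; exact le_max_left _ _
    have hinj : Set.InjOn t D := by
      intro d hd1 d' hd2 htt
      by_contra hne
      have n1 : ¬ d ≤ d' := fun h => hne (le_antisymm h
        (((memD d').1 hd2).2 ((memD d).1 hd1).1 h))
      have n2 : ¬ d' ≤ d := fun h => hne (le_antisymm
        (((memD d).1 hd1).2 ((memD d').1 hd2).1 h) h)
      rcases lt_trichotomy d.1 d'.1 with h | h | h
      · have h2 : d'.2 < d.2 := by
          by_contra hcon
          push Not at hcon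
          exact n1 ⟨h.le, hcon⟩
        exact key d hd1 d' hd2 htt h h2
      · rcases le_total d.2 d'.2 with h2 | h2
        · exact n1 ⟨h.le, h2⟩
        · exact n2 ⟨h.ge, h2⟩
      · have h2 : d.2 < d'.2 := by
          by_contra hcon
          push Not at hcon
          exact n2 ⟨h.le, hcon⟩
        exact key d' hd2 d hd1 htt.symm h h2
    have hcard : D.card ≤ (Finset.univ : Finset (Option (E ⊕ E))).card :=
      Finset.card_le_card_of_injOn t (fun p _ => Finset.mem_coe.2 (Finset.mem_univ _)) hinj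
    rw [Finset.card_univ] at hcard
    simp only [Fintype.card_sum, Fintype.card_option] at hcard
    omega
  · intro z hz
    by_cases hA : Alt tl hd g k M0 a b e p q (pr z).1 (pr z).2
    · exact Or.inr hA
    · left
      have hz1 : z ∈ Z1 := Finset.mem_filter.2 ⟨hz, hA⟩
      have hzS : pr z ∈ S := Finset.mem_image_of_mem pr hz1
      obtain ⟨m, hm1, hm2⟩ := (S.finite_toSet).exists_le_minimal (a := pr z)
        (Finset.mem_coe.2 hzS)
      have hmD : m ∈ D := (memD m).2 (by simpa using hm2)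
      refine ⟨ζ m, Finset.mem_image_of_mem ζ hmD, ?_⟩
      have e1 := (hζ m hmD).2
      have e2 : (pr (ζ m)) ≤ pr z := by rw [e1]; exact hm1
      exact e2

end Pool.Agent.L7h50.TV
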