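import Pool.Agent.L7h50.TV.Bas

set_option autoImplicit false

/-!
# Few pairs of costs dominate all pairs: the exchange argument
-/

namespace Pool.Agent.L7h50.TV

open Pool.Agent.L7h39.TV

variable {E N : Type} {tl hd : E → Option N} {g k a b : E → ℝ} {M0 : ℕ} {v : N}

theorem wy_nonneg (ha : ∀ f, 0 ≤ a f) (hb : ∀ f, 0 ≤ b f) {p : ℝ × ℝ}
    (h : Wy tl hd g k M0 a b v p) : 0 ≤ p.1 ∧ 0 ≤ p.2 := by
  obtain ⟨L, h⟩ := h
  rcases h with ⟨P, w, s, h1, h2, h3, h4, rfl⟩ | ⟨P, w, z, h1, h2, h3, h4, h5, rfl⟩ |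
    ⟨P, w, z, h1, h2, h3, h4, h5, h6, rfl⟩
  · exact ⟨(mxl_nonneg ha P).trans (le_max_left _ _), (mxl_nonneg hb P).trans (le_max_left _ _)⟩
  · exact ⟨(mxl_nonneg ha P).trans (le_max_left _ _), (mxl_nonneg hb P).trans (le_max_left _ _)⟩
  · exact ⟨(mxl_nonneg ha P).trans (le_max_left _ _), (mxl_nonneg hb P).trans (le_max_left _ _)⟩

/-- Pattern: the second cost is attained at the arc `h`, not after the first. -/
def PH (tl hd : E → Option N) (g k : E → ℝ) (M0 : ℕ) (a b : E → ℝ) (v : N) (h : E)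
    (p : ℝ × ℝ) : Prop :=
  ∃ (x : List E) (u : N) (r : ℝ × ℝ), Wk tl hd v x u ∧ tl h = some u ∧
    Wy tl hd g k M0 a b u r ∧ r.2 ≤ b h ∧ mxl k a x < p.1 ∧ wt k x * r.1 ≤ p.1 ∧
    mxl k b x ≤ p.2 ∧ p.2 = wt k x * b h

/-- Exchange for this pattern. -/
theorem ph_ex (hk : ∀ f, 0 < k f) (ha : ∀ f, 0 ≤ a f) (hb : ∀ f, 0 ≤ b f) {h : E}
    {p p' : ℝ × ℝ} (h1 : PH tl hd g k M0 a b v h p) (h2 : PH tl hd g k M0 a b v h p')
    (h3 : p.1 < p'.1) (h4 : p'.2 < p.2) :
    ∃ q, Wy tl hd g k M0 a b v q ∧ q.1 < p'.1 ∧ q.2 ≤ p'.2 := by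
  obtain ⟨x, u, r, a1, a2, a3, a4, a5, a6, a7, a8⟩ := h1
  obtain ⟨x', u', r', b1, b2, b3, b4, b5, b6, b7, b8⟩ := h2
  have huu : u = u' := Option.some.inj (a2.symm.trans b2)
  subst huu
  have hw : wt k x' < wt k x := by
    rw [a8, b8] at h4
    exact lt_of_mul_lt_mul_right h4 (hb h)
  refine ⟨_, wy_pre hk ha hb b1 a3, ?_, ?_⟩
  · refine max_lt b5 (lt_of_le_of_lt ?_ h3)
    exact (mul_le_mul_of_nonneg_right hw.le (wy_nonneg ha hb a3).1).trans a6
  · refine max_le b7 ?_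
    rw [b8]
    exact mul_le_mul_of_nonneg_left a4 (wt_pos hk x').le

/-- Pattern: closed walk of weight one, both costs are attained there; the second cost at `h`,
not after the first, which is attained at `f`. -/
def CH (tl hd : E → Option N) (k a b : E → ℝ) (v : N) (h f : E) (p : ℝ × ℝ) : Prop :=
  ∃ (P : List E) (w : N) (x m n : List E) (κ : ℝ), Wk tl hd v P w ∧
    Wk tl hd w (x ++ (m ++ f :: n)) w ∧ (m ++ f :: n).head? = some h ∧
    wt k (x ++ (m ++ f :: n)) = 1 ∧ 1 < κ ∧ mxl k a P < p.1 ∧ mxl k b P ≤ p.2 ∧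
    p.1 = wt k P * (κ * mxl k a (x ++ (m ++ f :: n))) ∧
    p.2 = wt k P * (κ * mxl k b (x ++ (m ++ f :: n))) ∧
    mxl k a (x ++ (m ++ f :: n)) = wt k x * (wt k m * a f) ∧
    mxl k b (x ++ (m ++ f :: n)) = wt k x * b h

theorem ch_bound (hk : ∀ f, 0 < k f) {c : E → ℝ} (hc : ∀ f, 0 ≤ c f) {P x m m' n : List E}
    {B : ℝ} (h1 : wt k (x ++ (m' ++ n)) = 1) (h2 : wt k m ≤ wt k m')
    (h3 : mxl k c P ≤ B) (h4 : wt k P * mxl k c (x ++ (m' ++ n)) ≤ B)
    (h5 : wt k P * (wt k x * mxl k c m) ≤ B) :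
    max (mxl k c (P ++ x)) (wt k (P ++ x) * mxl k c (m ++ (n ++ x))) ≤ B := by
  have wP := wt_pos hk P
  have wx := wt_pos hk x
  have wm := wt_pos hk m
  have wm' := wt_pos hk m'
  have wn := wt_pos hk n
  have e1 : wt k x * (wt k m' * wt k n) = 1 := by rw [← h1, wt_append, wt_append]
  have hx : mxl k c x ≤ mxl k c (x ++ (m' ++ n)) := mxl_le_append_left hk hc _ _
  have hn : wt k x * (wt k m' * mxl k c n) ≤ mxl k c (x ++ (m' ++ n)) :=
    (mul_le_mul_of_nonneg_left (mxl_le_append_right hk hc m' n) wx.le).trans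
      (mxl_le_append_right hk hc _ _)
  have hPx : wt k P * mxl k c x ≤ B := (mul_le_mul_of_nonneg_left hx wP.le).trans h4
  refine max_le ?_ ?_
  · rw [mxl_append hk hc]
    exact max_le h3 hPx
  · rw [wt_append, mul_assoc, mxl_append hk hc, mxl_append hk hc n x,
      mul_max_of_nonneg _ _ wm.le, mul_max_of_nonneg _ _ wx.le, mul_max_of_nonneg _ _ wx.le,
      mul_max_of_nonneg _ _ wP.le, mul_max_of_nonneg _ _ wP.le]
    refine max_le h5 (max_le ?_ ?_)
    · refine le_trans ?_ ((mul_le_mul_of_nonneg_left hn wP.le).trans h4)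
      exact mul_le_mul_of_nonneg_left (mul_le_mul_of_nonneg_left
        (mul_le_mul_of_nonneg_right h2 (mxl_nonneg hc n)) wx.le) wP.le
    · refine le_trans ?_ hPx
      refine mul_le_mul_of_nonneg_left ?_ wP.le
      have e2 : wt k x * (wt k m * (wt k n * mxl k c x)) =
          (wt k x * (wt k m * wt k n)) * mxl k c x := by ring
      rw [e2]
      have e3 : wt k x * (wt k m * wt k n) ≤ 1 := by
        rw [← e1]
        exact mul_le_mul_of_nonneg_left (mul_le_mul_of_nonneg_right h2 wn.le) wx.le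
      calc _ ≤ 1 * mxl k c x := mul_le_mul_of_nonneg_right e3 (mxl_nonneg hc x)
        _ = _ := one_mul _

/-- Exchange for this pattern. -/
theorem ch_ex (hk : ∀ f, 0 < k f) (ha : ∀ f, 0 ≤ a f) (hb : ∀ f, 0 ≤ b f) {h f : E}
    {p p' : ℝ × ℝ} (h1 : CH tl hd k a b v h f p) (h2 : CH tl hd k a b v h f p')
    (h3 : p.1 < p'.1) (h4 : p'.2 < p.2) :
    ∃ q, Wy tl hd g k M0 a b v q ∧ q.1 < p'.1 ∧ q.2 ≤ p'.2 := by
  obtain ⟨P, w, x, m, n, κ, a1, a2, a3, a4, a5, a6, a7, a8, a9, a10, a11⟩ := h1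
  obtain ⟨P', w', x', m', n', κ', b1, b2, b3, b4, b5, b6, b7, b8, b9, b10, b11⟩ := h2
  -- the walks
  obtain ⟨u, c1, c2⟩ := wk_split a2
  obtain ⟨t, c3, c4⟩ := wk_split c2
  obtain ⟨u', d1, d2⟩ := wk_split b2
  obtain ⟨t', d3, d4⟩ := wk_split d2
  have ht : t = t' := Option.some.inj ((wk_head c4).symm.trans (wk_head d4))
  subst ht
  have hu : tl h = some u := by
    obtain ⟨y, hy⟩ : ∃ y, m ++ f :: n = h :: y := List.head?_eq_some_iff.1 a3
    rw [hy] at c2; exact wk_head c2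
  have hu' : tl h = some u' := by
    obtain ⟨y, hy⟩ : ∃ y, m' ++ f :: n' = h :: y := List.head?_eq_some_iff.1 b3
    rw [hy] at d2; exact wk_head d2
  have huu : u = u' := Option.some.inj (hu.symm.trans hu')
  subst huu
  have wP := wt_pos hk P
  have wP' := wt_pos hk P'
  have wx := wt_pos hk x
  have wx' := wt_pos hk x'
  have wm := wt_pos hk m
  have wm' := wt_pos hk m'
  have wn' := wt_pos hk (f :: n')
  have k0 : 0 < κ := zero_lt_one.trans a5
  have k0' : 0 < κ' := zero_lt_one.trans b5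
  -- weights
  have hA : wt k P' * κ' * wt k x' < wt k P * κ * wt k x := by
    rw [b9, a9, b11, a11] at h4
    refine lt_of_mul_lt_mul_right ?_ (hb h)
    linarith
  have hmm : wt k m < wt k m' := by
    by_contra hcon
    push Not at hcon
    rw [a8, b8, a10, b10] at h3
    have e1 : (wt k P' * κ' * wt k x') * wt k m' ≤ (wt k P * κ * wt k x) * wt k m :=
      mul_le_mul hA.le hcon wm'.le (by positivity)
    have e2 := mul_le_mul_of_nonneg_right e1 (ha f)
    linarith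
  have hC : wt k (m ++ (f :: n' ++ x')) < 1 := by
    have e1 : wt k (m ++ (f :: n' ++ x')) = (wt k x' * wt k (f :: n')) * wt k m := by
      rw [wt_append, wt_append]; ring
    have e2 : (wt k x' * wt k (f :: n')) * wt k m' = 1 := by
      rw [← b4, wt_append, wt_append]; ring
    rw [e1, ← e2]
    exact mul_lt_mul_of_pos_left hmm (mul_pos wx' wn')
  have hwy := wy_pre (x := P' ++ x') (g := g) (M0 := M0) hk ha hb (wk_append b1 d1)
    (wy_cyc ha hb (wk_append c3 (wk_append d4 d1)) hC)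
  refine ⟨_, hwy, ?_, ?_⟩
  · -- strict bound
    have p0 : 0 < p'.1 := (mxl_nonneg ha P').trans_lt b6
    have z0 : 0 < mxl k a (x' ++ (m' ++ f :: n')) := by
      by_contra hcon
      push Not at hcon
      rw [b8] at p0
      have : wt k P' * (κ' * mxl k a (x' ++ (m' ++ f :: n'))) ≤ 0 :=
        mul_nonpos_of_nonneg_of_nonpos wP'.le (mul_nonpos_of_nonneg_of_nonpos k0'.le hcon)
      linarith
    have f1 : wt k P' * mxl k a (x' ++ (m' ++ f :: n')) < p'.1 := by
      rw [b8]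
      refine mul_lt_mul_of_pos_left ?_ wP'
      nlinarith
    have f2 : wt k P' * (wt k x' * mxl k a m) < p'.1 := by
      refine lt_of_le_of_lt ?_ h3
      have e1 : wt k x * mxl k a m ≤ mxl k a (x ++ (m ++ f :: n)) :=
        (mul_le_mul_of_nonneg_left (mxl_le_append_left hk ha m (f :: n)) wx.le).trans
          (mxl_le_append_right hk ha _ _)
      have e2 : wt k P * κ * wt k x * mxl k a m ≤ p.1 := by
        rw [a8]
        have := mul_le_mul_of_nonneg_left e1 (mul_pos wP k0).le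
        linarith
      have e3 : wt k P' * wt k x' ≤ wt k P' * κ' * wt k x' := by
        have := mul_pos wP' wx'
        nlinarith
      have e4 := mul_le_mul_of_nonneg_right (e3.trans hA.le) (mxl_nonneg (k := k) ha m)
      linarith
    have h5 := ch_bound (P := P') (x := x') (m := m) (m' := m') (n := f :: n')
      (B := max (mxl k a P') (max (wt k P' * mxl k a (x' ++ (m' ++ f :: n')))
        (wt k P' * (wt k x' * mxl k a m)))) hk ha b4 hmm.le (le_max_left _ _)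
      ((le_max_left _ _).trans (le_max_right _ _)) ((le_max_right _ _).trans (le_max_right _ _))
    exact lt_of_le_of_lt h5 (max_lt b6 (max_lt f1 f2))
  · have f1 : wt k P' * mxl k b (x' ++ (m' ++ f :: n')) ≤ p'.2 := by
      rw [b9]
      refine mul_le_mul_of_nonneg_left ?_ wP'.le
      have := mxl_nonneg (k := k) hb (x' ++ (m' ++ f :: n'))
      nlinarith
    have f2 : wt k P' * (wt k x' * mxl k b m) ≤ p'.2 := by
      have e1 : wt k x * mxl k b m ≤ wt k x * b h := by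
        rw [← a11]
        exact (mul_le_mul_of_nonneg_left (mxl_le_append_left hk hb m (f :: n)) wx.le).trans
          (mxl_le_append_right hk hb _ _)
      have e2 : mxl k b m ≤ b h := le_of_mul_le_mul_left e1 wx
      rw [b9, b11]
      refine mul_le_mul_of_nonneg_left ?_ wP'.le
      have e3 : wt k x' * mxl k b m ≤ wt k x' * b h := mul_le_mul_of_nonneg_left e2 wx'.le
      have e4 : 0 ≤ wt k x' * b h := mul_nonneg wx'.le (hb h)
      nlinarith
    exact ch_bound hk hb b4 hmm.le b7 f1 f2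

/-- A prefix `x` of a way with costs at most `p`. -/
def Good (tl hd : E → Option N) (g k : E → ℝ) (M0 : ℕ) (a b : E → ℝ) (v : N) (x : List E)
    (u : N) (p : ℝ × ℝ) : Prop :=
  Wk tl hd v x u ∧ mxl k a x ≤ p.1 ∧ mxl k b x ≤ p.2 ∧
    ∃ r, Wy tl hd g k M0 a b u r ∧ wt k x * r.1 ≤ p.1 ∧ wt k x * r.2 ≤ p.2

theorem good_swap {x : List E} {u : N} {p : ℝ × ℝ} (h : Good tl hd g k M0 a b v x u p) :
    Good tl hd g k M0 b a v x u p.swap := by
  obtain ⟨h1, h2, h3, r, h4, h5, h6⟩ := h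
  exact ⟨h1, h3, h2, r.swap, wy_swap h4, h6, h5⟩

theorem good_prefix (hk : ∀ f, 0 < k f) (ha : ∀ f, 0 ≤ a f) (hb : ∀ f, 0 ≤ b f)
    {x y : List E} {u : N} {p : ℝ × ℝ} (h : Good tl hd g k M0 a b v (x ++ y) u p) :
    ∃ u', Good tl hd g k M0 a b v x u' p ∧ Wk tl hd u' y u := by
  obtain ⟨h1, h2, h3, r, h4, h5, h6⟩ := h
  obtain ⟨u', h7, h8⟩ := wk_split h1
  have wx := wt_pos hk x
  refine ⟨u', ⟨h7, (mxl_le_append_left hk ha x y).trans h2,
    (mxl_le_append_left hk hb x y).trans h3, _, wy_pre hk ha hb h8 h4, ?_, ?_⟩, h8⟩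
  · dsimp only
    rw [mul_max_of_nonneg _ _ wx.le]
    refine max_le ((mxl_le_append_right hk ha x y).trans h2) ?_
    rw [← mul_assoc, ← wt_append]; exact h5
  · dsimp only
    rw [mul_max_of_nonneg _ _ wx.le]
    refine max_le ((mxl_le_append_right hk hb x y).trans h3) ?_
    rw [← mul_assoc, ← wt_append]; exact h6

theorem ph_of_good (hk : ∀ f, 0 < k f) {x : List E} {u : N} {p : ℝ × ℝ} {h : E}
    (h1 : Good tl hd g k M0 a b v x u p) (h2 : tl h = some u) (h3 : mxl k a x < p.1)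
    (h4 : p.2 = wt k x * b h) : PH tl hd g k M0 a b v h p := by
  obtain ⟨c1, c2, c3, r, c4, c5, c6⟩ := h1
  refine ⟨x, u, r, c1, h2, c4, ?_, h3, c5, c3, h4⟩
  rw [h4] at c6
  exact le_of_mul_le_mul_left c6 (wt_pos hk x)

/-- The second cost is attained in `x`. -/
theorem good_att (hk : ∀ f, 0 < k f) (ha : ∀ f, 0 ≤ a f) (hb : ∀ f, 0 ≤ b f)
    {x : List E} {u : N} {p : ℝ × ℝ} (h1 : Good tl hd g k M0 a b v x u p) (p1 : 0 < p.1)
    (p2 : 0 < p.2) (h2 : p.2 ≤ mxl k b x) :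
    (∃ h, PH tl hd g k M0 a b v h p) ∨ ∃ f, PH tl hd g k M0 b a v f p.swap := by
  have e0 : mxl k b x = p.2 := le_antisymm h1.2.2.1 h2
  obtain ⟨x1, h, n, e1, e2, e3⟩ := first_att hk hb x (by rw [e0]; exact p2)
  subst e1
  obtain ⟨u1, g1, w1⟩ := good_prefix hk ha hb h1
  rw [e0] at e2 e3
  rcases lt_or_ge (mxl k a x1) p.1 with h3 | h3
  · exact Or.inl ⟨h, ph_of_good hk g1 (wk_head w1) h3 e3⟩
  · have f0 : mxl k a x1 = p.1 := le_antisymm g1.2.1 h3
    obtain ⟨x2, f, n2, f1, f2, f3⟩ := first_att hk ha x1 (by rw [f0]; exact p1)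
    subst f1
    obtain ⟨u2, g2, w2⟩ := good_prefix hk ha hb g1
    rw [f0] at f2 f3
    refine Or.inr ⟨f, ph_of_good hk (good_swap g2) (wk_head w2) ?_ f3⟩
    exact (mxl_le_append_left hk hb x2 (f :: n2)).trans_lt e2

/-- The second cost is attained just after `x`. -/
theorem good_att' (hk : ∀ f, 0 < k f) (ha : ∀ f, 0 ≤ a f) (hb : ∀ f, 0 ≤ b f)
    {x : List E} {u : N} {p : ℝ × ℝ} {h : E} (h1 : Good tl hd g k M0 a b v x u p) (p1 : 0 < p.1)
    (p2 : 0 < p.2) (h2 : tl h = some u) (h3 : p.2 = wt k x * b h) :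
    (∃ h, PH tl hd g k M0 a b v h p) ∨ ∃ f, PH tl hd g k M0 b a v f p.swap := by
  rcases lt_or_ge (mxl k a x) p.1 with h4 | h4
  · exact Or.inl ⟨h, ph_of_good hk h1 h2 h4 h3⟩
  · exact (good_att (p := p.swap) hk hb ha (good_swap h1) p2 p1 h4).symm

theorem rot_le (hk : ∀ f, 0 < k f) {c : E → ℝ} (hc : ∀ f, 0 ≤ c f) {x y : List E}
    (h : wt k (x ++ y) ≤ 1) : wt k x * mxl k c (y ++ x) ≤ mxl k c (x ++ y) := by
  rw [mxl_append hk hc y x, mul_max_of_nonneg _ _ (wt_pos hk x).le]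
  refine max_le (mxl_le_append_right hk hc _ _) ?_
  rw [← mul_assoc, ← wt_append]
  calc _ ≤ 1 * mxl k c x := mul_le_mul_of_nonneg_right h (mxl_nonneg hc x)
    _ ≤ _ := by rw [one_mul]; exact mxl_le_append_left hk hc _ _

/-- The second cost is attained in a closed walk of weight less than one. -/
theorem pat_cyc (hk : ∀ f, 0 < k f) (ha : ∀ f, 0 ≤ a f) (hb : ∀ f, 0 ≤ b f)
    {P z : List E} {w : N} {p : ℝ × ℝ} (hP : Wk tl hd v P w) (hz : Wk tl hd w z w)
    (hw : wt k z < 1) (e : p = (max (mxl k a P) (wt k P * mxl k a z),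
      max (mxl k b P) (wt k P * mxl k b z))) (p1 : 0 < p.1) (p2 : 0 < p.2) :
    (∃ h, PH tl hd g k M0 a b v h p) ∨ ∃ f, PH tl hd g k M0 b a v f p.swap := by
  have q1 : p.1 = max (mxl k a P) (wt k P * mxl k a z) := by rw [e]
  have q2 : p.2 = max (mxl k b P) (wt k P * mxl k b z) := by rw [e]
  have wP := wt_pos hk P
  rcases le_total (wt k P * mxl k b z) (mxl k b P) with h1 | h1
  · rw [max_eq_left h1] at q2
    refine good_att (x := P) (u := w) hk ha hb ⟨hP, ?_, q2.ge, _, wy_cyc ha hb hz hw, ?_, ?_⟩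
      p1 p2 q2.le
    · rw [q1]; exact le_max_left _ _
    · rw [q1]; exact le_max_right _ _
    · rw [q2]; exact h1
  · rw [max_eq_right h1] at q2
    have z2 : 0 < mxl k b z := by
      rw [q2] at p2
      exact (pos_iff_pos_of_mul_pos p2).1 wP
    obtain ⟨x, h, n, e1, e2, e3⟩ := first_att hk hb z z2
    subst e1
    obtain ⟨u, g1, g2⟩ := wk_split hz
    have hrot : wt k (h :: n ++ x) < 1 := by
      rw [wt_append, mul_comm, ← wt_append]; exact hw
    have k1 : mxl k a P ≤ p.1 := by rw [q1]; exact le_max_left _ _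
    have k2 : wt k P * mxl k a (x ++ h :: n) ≤ p.1 := by rw [q1]; exact le_max_right _ _
    have k3 : mxl k b P ≤ p.2 := by rw [q2]; exact h1
    refine good_att' (x := P ++ x) (u := u) (h := h) hk ha hb
      ⟨wk_append hP g1, ?_, ?_, _, wy_cyc ha hb (wk_append g2 g1) hrot, ?_, ?_⟩ p1 p2
      (wk_head g2) ?_
    · rw [mxl_append hk ha]
      exact max_le k1 ((mul_le_mul_of_nonneg_left (mxl_le_append_left hk ha _ _) wP.le).trans k2)
    · rw [mxl_append hk hb]
      exact max_le k3 ((mul_le_mul_of_nonneg_left (mxl_le_append_left hk hb _ _) wP.le).trans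
        q2.ge)
    · dsimp only
      rw [wt_append, mul_assoc]
      exact (mul_le_mul_of_nonneg_left (rot_le hk ha hw.le) wP.le).trans k2
    · dsimp only
      rw [wt_append, mul_assoc]
      exact (mul_le_mul_of_nonneg_left (rot_le hk hb hw.le) wP.le).trans q2.ge
    · rw [q2, e3, wt_append, mul_assoc]

/-- Both costs are attained in a closed walk of weight one. -/
theorem pat_one (hk : ∀ f, 0 < k f) (ha : ∀ f, 0 ≤ a f) (hb : ∀ f, 0 ≤ b f)
    {P z : List E} {w : N} {p : ℝ × ℝ} {κ : ℝ} (hP : Wk tl hd v P w) (hz : Wk tl hd w z w)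
    (hw : wt k z = 1) (hκ : 1 < κ) (h1 : mxl k a P < p.1) (h2 : mxl k b P < p.2)
    (q1 : p.1 = wt k P * (κ * mxl k a z)) (q2 : p.2 = wt k P * (κ * mxl k b z)) :
    (∃ h f, CH tl hd k a b v h f p) ∨ ∃ h f, CH tl hd k b a v h f p.swap := by
  have wP := wt_pos hk P
  have k0 : 0 < κ := zero_lt_one.trans hκ
  have p1 : 0 < p.1 := (mxl_nonneg ha P).trans_lt h1
  have p2 : 0 < p.2 := (mxl_nonneg hb P).trans_lt h2
  have z1 : 0 < mxl k a z := by
    rw [q1] at p1
    exact (pos_iff_pos_of_mul_pos ((pos_iff_pos_of_mul_pos p1).1 wP)).1 k0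
  have z2 : 0 < mxl k b z := by
    rw [q2] at p2
    exact (pos_iff_pos_of_mul_pos ((pos_iff_pos_of_mul_pos p2).1 wP)).1 k0
  obtain ⟨x, h, n, e1, e2, e3⟩ := first_att hk hb z z2
  rcases lt_or_ge (mxl k a x) (mxl k a z) with h3 | h3
  · -- `h` first
    have h4 : mxl k a z = wt k x * mxl k a (h :: n) := by
      rw [e1, mxl_append hk ha]
      refine max_eq_right ?_
      by_contra hcon
      push Not at hcon
      rw [e1, mxl_append hk ha, max_eq_left hcon.le] at h3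
      exact lt_irrefl _ h3
    have h5 : 0 < mxl k a (h :: n) := by
      rw [h4] at z1
      exact (pos_iff_pos_of_mul_pos z1).1 (wt_pos hk x)
    obtain ⟨m, f, n2, f1, f2, f3⟩ := first_att hk ha (h :: n) h5
    have e4 : z = x ++ (m ++ f :: n2) := by rw [e1, f1]
    refine Or.inl ⟨h, f, P, w, x, m, n2, κ, hP, by rw [← e4]; exact hz, by rw [← f1]; rfl,
      by rw [← e4]; exact hw, hκ, h1, h2.le, by rw [← e4]; exact q1, by rw [← e4]; exact q2, ?_,
      by rw [← e4]; exact e3⟩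
    rw [← e4, h4, f3]
  · -- `f` first
    have h4 : mxl k a x = mxl k a z := by
      refine le_antisymm ?_ h3
      rw [e1]; exact mxl_le_append_left hk ha _ _
    obtain ⟨x1, f, n1, f1, f2, f3⟩ := first_att hk ha x (by rw [h4]; exact z1)
    have e4 : z = x1 ++ ((f :: n1) ++ h :: n) := by rw [e1, f1]; simp
    refine Or.inr ⟨f, h, P, w, x1, f :: n1, n, κ, hP, by rw [← e4]; exact hz, rfl,
      by rw [← e4]; exact hw, hκ, h2, h1.le, by rw [← e4]; exact q2, by rw [← e4]; exact q1, ?_,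
      ?_⟩
    · rw [← e4, e3, f1, wt_append, mul_assoc]
    · rw [← e4, ← h4, f3]

/-- The patterns. -/
abbrev Pat (E : Type) := Bool ⊕ ((E ⊕ E) ⊕ ((E × E) ⊕ (E × E)))

/-- The pair `p` has the pattern. -/
def Has (tl hd : E → Option N) (g k : E → ℝ) (M0 : ℕ) (a b : E → ℝ) (v : N) (p : ℝ × ℝ) :
    Pat E → Prop
  | Sum.inl true => p.1 = 0
  | Sum.inl false => p.2 = 0
  | Sum.inr (Sum.inl (Sum.inl h)) => PH tl hd g k M0 a b v h p
  | Sum.inr (Sum.inl (Sum.inr f)) => PH tl hd g k M0 b a v f p.swap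
  | Sum.inr (Sum.inr (Sum.inl (h, f))) => CH tl hd k a b v h f p
  | Sum.inr (Sum.inr (Sum.inr (h, f))) => CH tl hd k b a v h f p.swap

theorem has_pat (hg : ∀ f, 0 < g f) (hk : ∀ f, 0 < k f) (ha : ∀ f, 0 ≤ a f)
    (hb : ∀ f, 0 ≤ b f) {p : ℝ × ℝ} (hp : Wy tl hd g k M0 a b v p) :
    ∃ t, Has tl hd g k M0 a b v p t := by
  obtain ⟨p1, p2⟩ := wy_nonneg ha hb hp
  rcases p1.eq_or_lt with p1 | p1
  · exact ⟨Sum.inl true, p1.symm⟩
  rcases p2.eq_or_lt with p2 | p2
  · exact ⟨Sum.inl false, p2.symm⟩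
  have key : ((∃ h, PH tl hd g k M0 a b v h p) ∨ ∃ f, PH tl hd g k M0 b a v f p.swap) ∨
      ((∃ h f, CH tl hd k a b v h f p) ∨ ∃ h f, CH tl hd k b a v h f p.swap) := by
    obtain ⟨L, hp⟩ := hp
    rcases hp with ⟨P, w, s, h1, h2, h3, h4, e⟩ | ⟨P, w, z, h1, h2, h3, h4, h5, e⟩ |
      ⟨P, w, z, h1, h2, h3, h4, h5, h6, e⟩
    · left
      have q1 : p.1 = max (mxl k a P) (wt k P * a s) := by rw [e]
      have q2 : p.2 = max (mxl k b P) (wt k P * b s) := by rw [e]
      have hs : Wy tl hd g k M0 a b w (a s, b s) := by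
        refine ⟨0, Or.inl ⟨[], w, s, Wk.nil w, le_rfl, h3, h4, ?_⟩⟩
        rw [mxl_nil, mxl_nil, wt_nil, one_mul, one_mul, max_eq_right (ha s),
          max_eq_right (hb s)]
      have hgood : Good tl hd g k M0 a b v P w p := by
        refine ⟨h1, ?_, ?_, _, hs, ?_, ?_⟩
        · rw [q1]; exact le_max_left _ _
        · rw [q2]; exact le_max_left _ _
        · rw [q1]; exact le_max_right _ _
        · rw [q2]; exact le_max_right _ _
      rcases le_total (wt k P * b s) (mxl k b P) with h5 | h5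
      · exact good_att hk ha hb hgood p1 p2 (by rw [q2, max_eq_left h5])
      · exact good_att' hk ha hb hgood p1 p2 h3 (by rw [q2, max_eq_right h5])
    · left
      exact pat_cyc hk ha hb h1 h3 h5 e p1 p2
    · have hgz : 0 < 1 - wt g z := by linarith
      have hg0 : 0 < wt g z := wt_pos hg z
      have hκ : 1 < (1 - wt g z)⁻¹ := (one_lt_inv₀ hgz).2 (by linarith)
      have q1 : p.1 = max (mxl k a P) (wt k P * ((1 - wt g z)⁻¹ * mxl k a z)) := by rw [e]
      have q2 : p.2 = max (mxl k b P) (wt k P * ((1 - wt g z)⁻¹ * mxl k b z)) := by rw [e]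
      have hs : Wy tl hd g k M0 a b w
          ((1 - wt g z)⁻¹ * mxl k a z, (1 - wt g z)⁻¹ * mxl k b z) := by
        refine ⟨0, Or.inr (Or.inr ⟨[], w, z, Wk.nil w, le_rfl, h3, h4, h5, h6, ?_⟩)⟩
        rw [mxl_nil, mxl_nil, wt_nil, one_mul, one_mul,
          max_eq_right (mul_nonneg (zero_lt_one.trans hκ).le (mxl_nonneg ha z)),
          max_eq_right (mul_nonneg (zero_lt_one.trans hκ).le (mxl_nonneg hb z))]
      have hgood : Good tl hd g k M0 a b v P w p := by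
        refine ⟨h1, ?_, ?_, _, hs, ?_, ?_⟩
        · rw [q1]; exact le_max_left _ _
        · rw [q2]; exact le_max_left _ _
        · rw [q1]; exact le_max_right _ _
        · rw [q2]; exact le_max_right _ _
      rcases lt_or_ge (mxl k b P) p.2 with h7 | h7
      · rcases lt_or_ge (mxl k a P) p.1 with h8 | h8
        · right
          refine pat_one hk ha hb h1 h3 h5 hκ h8 h7 ?_ ?_
          · rcases le_total (wt k P * ((1 - wt g z)⁻¹ * mxl k a z)) (mxl k a P) with h9 | h9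
            · rw [max_eq_left h9] at q1; exact absurd h8 (by rw [q1]; exact lt_irrefl _)
            · rw [max_eq_right h9] at q1; exact q1
          · rcases le_total (wt k P * ((1 - wt g z)⁻¹ * mxl k b z)) (mxl k b P) with h9 | h9
            · rw [max_eq_left h9] at q2; exact absurd h7 (by rw [q2]; exact lt_irrefl _)
            · rw [max_eq_right h9] at q2; exact q2
        · left
          exact (good_att (p := p.swap) hk hb ha (good_swap hgood) p2 p1 h8).symm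
      · left
        exact good_att hk ha hb hgood p1 p2 h7
  rcases key with (⟨h, hh⟩ | ⟨f, hf⟩) | (⟨h, f, hh⟩ | ⟨h, f, hh⟩)
  · exact ⟨Sum.inr (Sum.inl (Sum.inl h)), hh⟩
  · exact ⟨Sum.inr (Sum.inl (Sum.inr f)), hf⟩
  · exact ⟨Sum.inr (Sum.inr (Sum.inl (h, f))), hh⟩
  · exact ⟨Sum.inr (Sum.inr (Sum.inr (h, f))), hh⟩

/-- Two different minimal pairs never share a pattern. -/
theorem has_ex (hk : ∀ f, 0 < k f) (ha : ∀ f, 0 ≤ a f)
    (hb : ∀ f, 0 ≤ b f) {p p' : ℝ × ℝ} (t : Pat E)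
    (h1 : Has tl hd g k M0 a b v p t) (h2 : Has tl hd g k M0 a b v p' t)
    (h3 : p.1 < p'.1) (h4 : p'.2 < p.2) (hp : Wy tl hd g k M0 a b v p)
    (hp' : Wy tl hd g k M0 a b v p') :
    ∃ q, Wy tl hd g k M0 a b v q ∧ ((q ≤ p' ∧ q ≠ p') ∨ (q ≤ p ∧ q ≠ p)) := by
  have c1 : ∀ {q r : ℝ × ℝ}, q.1 < r.1 → q.2 ≤ r.2 → q ≤ r ∧ q ≠ r := fun h1 h2 =>
    ⟨⟨h1.le, h2⟩, fun h => by rw [h] at h1; exact lt_irrefl _ h1⟩
  have c2 : ∀ {q r : ℝ × ℝ}, q.1 ≤ r.1 → q.2 < r.2 → q ≤ r ∧ q ≠ r := fun h1 h2 =>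
    ⟨⟨h1, h2.le⟩, fun h => by rw [h] at h2; exact lt_irrefl _ h2⟩
  rcases t with (_ | _) | ((h | f) | (⟨h, f⟩ | ⟨h, f⟩))
  · change p.2 = 0 at h1
    have := (wy_nonneg ha hb hp').2
    linarith
  · change p'.1 = 0 at h2
    have := (wy_nonneg ha hb hp).1
    linarith
  · obtain ⟨q, q1, q2, q3⟩ := ph_ex hk ha hb h1 h2 h3 h4
    exact ⟨q, q1, Or.inl (c1 q2 q3)⟩
  · obtain ⟨q, q1, q2, q3⟩ := ph_ex (p := p'.swap) (p' := p.swap) hk hb ha h2 h1 h4 h3
    exact ⟨q.swap, wy_swap q1, Or.inr (c2 q3 q2)⟩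
  · obtain ⟨q, q1, q2, q3⟩ := ch_ex (g := g) (M0 := M0) hk ha hb h1 h2 h3 h4
    exact ⟨q, q1, Or.inl (c1 q2 q3)⟩
  · obtain ⟨q, q1, q2, q3⟩ :=
      ch_ex (g := g) (M0 := M0) (p := p'.swap) (p' := p.swap) hk hb ha h2 h1 h4 h3
    exact ⟨q.swap, wy_swap q1, Or.inr (c2 q3 q2)⟩

end Pool.Agent.L7h50.TV
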